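import Mathlib

/-!
# Every operational basis is a generalized summation basis

Sequences are indexed by `ℕ`, so `x i` is the vector called `x_{i+1}` in one-based numbering and
`P 𝕜 x n` is the span of `x 0, …, x n`, the space called `P_{(n+1)}` in one-based numbering.

Idea of the proof.  Let `v n` witness that `(x n)` is an operational basis, put
`T k = v k ∘ s k`.  For every `i ≤ k` the operator
`T k + c i • (f i ∘ T k - f i) ⊗ x 0` (with `c i = 1 / (1 + ‖f i‖)`) also has the form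
`w ∘ s k`, and all these operators still converge strongly to the identity, even jointly, because
`|c i * f i (T k y - y)| ≤ ‖T k y - y‖`.  Listing all pairs `(k, j)`, `j ≤ 2 k`, as one sequence
we get `v'`.  If `v'` applied to the truncations of a scalar sequence `α` converges to `y`, then
the terms with `j = 0` give `T k α → y`, and the terms with `j = i + 1` then give
`c i • (f i y - α i) • x 0 = 0`, that is `α i = f i y`.
-/

open Filter Topology

namespace Pool.Agent.Results.MP_59cc96_an.OperationalIsSummation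

variable (𝕜 : Type*) [RCLike 𝕜] {E : Type*} [NormedAddCommGroup E] [NormedSpace 𝕜 E]

/-- The span of the first vectors `x 0, …, x n` of a sequence. -/
def P (x : ℕ → E) (n : ℕ) : Submodule 𝕜 E := Submodule.span 𝕜 (x '' Set.Iic n)

variable {𝕜}

theorem mem_P (x : ℕ → E) {i n : ℕ} (h : i ≤ n) : x i ∈ P 𝕜 x n :=
  Submodule.subset_span ⟨i, h, rfl⟩

theorem P_mono (x : ℕ → E) {m n : ℕ} (h : m ≤ n) : P 𝕜 x m ≤ P 𝕜 x n :=
  Submodule.span_mono (Set.image_mono (Set.Iic_subset_Iic.2 h))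

/-- The element `∑_{i ≤ n} α i • x i` of `P 𝕜 x n`, for a scalar sequence `α`. -/
def trunc (x : ℕ → E) (α : ℕ → 𝕜) (n : ℕ) : P 𝕜 x n :=
  ⟨∑ i ∈ Finset.range (n + 1), α i • x i, Submodule.sum_mem _ fun _ hi =>
    Submodule.smul_mem _ _ (mem_P x (Nat.lt_succ_iff.1 (Finset.mem_range.1 hi)))⟩

/-- `(x n)` is complete minimal with coefficient functionals `(f n)`: the linear span of the
`x n` is dense in `E` and the `f n` are continuous linear functionals biorthogonal to `(x n)`. -/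
def IsCompleteMinimalWith (x : ℕ → E) (f : ℕ → (E →L[𝕜] 𝕜)) : Prop :=
  Dense (Submodule.span 𝕜 (Set.range x) : Set E) ∧
    ∀ i j, f i (x j) = if i = j then 1 else 0

/-- `(x n)` is an operational basis of `E`: it is complete minimal, and there are linear
endomorphisms `v n` of `P 𝕜 x n` such that `y = lim v n (s n y)` for every `y : E`, where
`s n y = ∑_{i ≤ n} f i y • x i` is the partial sum operator. -/
def IsOperationalBasis (𝕜 : Type*) [RCLike 𝕜] {E : Type*} [NormedAddCommGroup E]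
    [NormedSpace 𝕜 E] (x : ℕ → E) : Prop :=
  ∃ f : ℕ → (E →L[𝕜] 𝕜), IsCompleteMinimalWith x f ∧
    ∃ v : (n : ℕ) → (P 𝕜 x n →ₗ[𝕜] P 𝕜 x n),
      ∀ y : E, Tendsto (fun n => (v n (trunc x (fun i => f i y) n) : E)) atTop (𝓝 y)

/-- `(x n)` is a generalized summation basis of `E` with respect to the linear endomorphisms
`v n` of `P 𝕜 x n`: (a) `lim_n v n (x i) = x i` for every `i`; (b) every `y : E` has exactly one
scalar sequence `α` with `y = lim_n v n (∑_{i ≤ n} α i • x i)`. -/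
def IsGeneralizedSummationBasis (x : ℕ → E) (v : (n : ℕ) → (P 𝕜 x n →ₗ[𝕜] P 𝕜 x n)) : Prop :=
  (∀ i, Tendsto (fun n => (v (i + n) ⟨x i, mem_P x (Nat.le_add_right i n)⟩ : E))
      atTop (𝓝 (x i))) ∧
    ∀ y : E, ∃! α : ℕ → 𝕜, Tendsto (fun n => (v n (trunc x α n) : E)) atTop (𝓝 y)

section Proof

/-- The partial sum operator as a linear map into `P 𝕜 x k`. -/
noncomputable def S (x : ℕ → E) (f : ℕ → (E →L[𝕜] 𝕜)) (k : ℕ) : E →ₗ[𝕜] P 𝕜 x k where
  toFun y := trunc x (fun i => f i y) k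
  map_add' y z := by
    apply Subtype.ext
    simp [trunc, add_smul, Finset.sum_add_distrib]
  map_smul' c y := by
    apply Subtype.ext
    simp [trunc, mul_smul, Finset.smul_sum]

/-- The scalar `1 / (1 + ‖f i‖)`. -/
noncomputable def c (f : ℕ → (E →L[𝕜] 𝕜)) (i : ℕ) : 𝕜 := (((1 + ‖f i‖)⁻¹ : ℝ) : 𝕜)

theorem c_ne_zero (f : ℕ → (E →L[𝕜] 𝕜)) (i : ℕ) : c f i ≠ 0 := by
  unfold c
  rw [Ne, RCLike.ofReal_eq_zero, inv_eq_zero]
  positivity

theorem norm_c_mul_le (f : ℕ → (E →L[𝕜] 𝕜)) (i : ℕ) (y : E) : ‖c f i * f i y‖ ≤ ‖y‖ := by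
  have h0 : (0 : ℝ) < 1 + ‖f i‖ := by positivity
  rw [norm_mul, c, RCLike.norm_ofReal, abs_of_pos (inv_pos.2 h0), inv_mul_le_iff₀ h0]
  calc ‖f i y‖ ≤ ‖f i‖ * ‖y‖ := (f i).le_opNorm y
    _ ≤ (1 + ‖f i‖) * ‖y‖ := by nlinarith [norm_nonneg y]

/-- The perturbed endomorphisms of `P 𝕜 x k`: for `j = 0` it is `v k`, and for `j = i + 1` it is
`v k + c i • (f i ∘ v k - f i) ⊗ x 0`. -/
noncomputable def w (x : ℕ → E) (f : ℕ → (E →L[𝕜] 𝕜)) (v : (n : ℕ) → (P 𝕜 x n →ₗ[𝕜] P 𝕜 x n))
    (k : ℕ) : ℕ → (P 𝕜 x k →ₗ[𝕜] P 𝕜 x k)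
  | 0 => v k
  | i + 1 => v k + (c f i • ((f i).toLinearMap ∘ₗ (P 𝕜 x k).subtype ∘ₗ
      (v k - LinearMap.id))).smulRight (⟨x 0, mem_P x (Nat.zero_le k)⟩ : P 𝕜 x k)

theorem w_zero_apply (x : ℕ → E) (f : ℕ → (E →L[𝕜] 𝕜))
    (v : (n : ℕ) → (P 𝕜 x n →ₗ[𝕜] P 𝕜 x n)) (k : ℕ) (p : P 𝕜 x k) :
    w x f v k 0 p = v k p := rfl

theorem w_succ_apply (x : ℕ → E) (f : ℕ → (E →L[𝕜] 𝕜))
    (v : (n : ℕ) → (P 𝕜 x n →ₗ[𝕜] P 𝕜 x n)) (k i : ℕ) (p : P 𝕜 x k) :
    (w x f v k (i + 1) p : E) = v k p + (c f i * f i ((v k p : E) - p)) • x 0 := by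
  simp [w]

/-- The new sequence of endomorphisms: at the index `n = k ^ 2 + j` with `j ≤ 2 k` it is
`w k j ∘ s k`, restricted to `P 𝕜 x n`. -/
noncomputable def v' (x : ℕ → E) (f : ℕ → (E →L[𝕜] 𝕜))
    (v : (n : ℕ) → (P 𝕜 x n →ₗ[𝕜] P 𝕜 x n)) (n : ℕ) : P 𝕜 x n →ₗ[𝕜] P 𝕜 x n :=
  Submodule.inclusion (P_mono x (Nat.sqrt_le_self n)) ∘ₗ
    w x f v (Nat.sqrt n) (n - Nat.sqrt n * Nat.sqrt n) ∘ₗ S x f (Nat.sqrt n) ∘ₗ
      (P 𝕜 x n).subtype

theorem f_trunc {x : ℕ → E} {f : ℕ → (E →L[𝕜] 𝕜)} (hf : ∀ i j, f i (x j) = if i = j then 1 else 0)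
    (α : ℕ → 𝕜) {i n : ℕ} (h : i ≤ n) : f i (trunc x α n : E) = α i := by
  have : (trunc x α n : E) = ∑ i ∈ Finset.range (n + 1), α i • x i := rfl
  rw [this, map_sum, Finset.sum_eq_single i]
  · simp [hf]
  · intro j _ hj
    simp [hf, hj.symm]
  · intro hi
    exact absurd (Finset.mem_range.2 (Nat.lt_succ_iff.2 h)) hi

theorem f_of_mem_P_eq_zero {x : ℕ → E} {f : ℕ → (E →L[𝕜] 𝕜)}
    (hf : ∀ i j, f i (x j) = if i = j then 1 else 0) {i n : ℕ} (h : n < i) (p : P 𝕜 x n) :
    f i (p : E) = 0 := by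
  have hle : P 𝕜 x n ≤ LinearMap.ker (f i).toLinearMap := by
    refine Submodule.span_le.2 ?_
    rintro _ ⟨j, hj, rfl⟩
    have hj' : j ≤ n := hj
    have : i ≠ j := by omega
    simp [hf, this]
  exact hle p.2

theorem S_trunc {x : ℕ → E} {f : ℕ → (E →L[𝕜] 𝕜)} (hf : ∀ i j, f i (x j) = if i = j then 1 else 0)
    (α : ℕ → 𝕜) {k n : ℕ} (h : k ≤ n) : S x f k (trunc x α n : E) = trunc x α k := by
  apply Subtype.ext
  change ∑ i ∈ Finset.range (k + 1), f i (trunc x α n : E) • x i =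
    ∑ i ∈ Finset.range (k + 1), α i • x i
  refine Finset.sum_congr rfl fun i hi => ?_
  rw [f_trunc hf α ((Nat.lt_succ_iff.1 (Finset.mem_range.1 hi)).trans h)]

theorem v'_trunc {x : ℕ → E} {f : ℕ → (E →L[𝕜] 𝕜)}
    (hf : ∀ i j, f i (x j) = if i = j then 1 else 0)
    (v : (n : ℕ) → (P 𝕜 x n →ₗ[𝕜] P 𝕜 x n)) (α : ℕ → 𝕜) (n : ℕ) :
    (v' x f v n (trunc x α n) : E) =
      w x f v (Nat.sqrt n) (n - Nat.sqrt n * Nat.sqrt n) (trunc x α (Nat.sqrt n)) := by
  have := S_trunc hf α (Nat.sqrt_le_self n)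
  simp only [v', LinearMap.comp_apply, Submodule.subtype_apply, Submodule.coe_inclusion]
  rw [this]

theorem v'_trunc' {x : ℕ → E} {f : ℕ → (E →L[𝕜] 𝕜)}
    (hf : ∀ i j, f i (x j) = if i = j then 1 else 0)
    (v : (n : ℕ) → (P 𝕜 x n →ₗ[𝕜] P 𝕜 x n)) (α : ℕ → 𝕜) (k j : ℕ) (h : j ≤ k + k) :
    (v' x f v (k * k + j) (trunc x α (k * k + j)) : E) = w x f v k j (trunc x α k) := by
  rw [v'_trunc hf, Nat.sqrt_add_eq k h, Nat.add_sub_cancel_left]

theorem tendsto_sqrt : Tendsto Nat.sqrt atTop atTop := by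
  refine tendsto_atTop.2 fun b => ?_
  filter_upwards [eventually_ge_atTop (b * b)] with n hn
  exact Nat.le_sqrt.2 hn

/-- The perturbations do not destroy strong convergence to the identity. -/
theorem tendsto_v' {x : ℕ → E} {f : ℕ → (E →L[𝕜] 𝕜)}
    (hf : ∀ i j, f i (x j) = if i = j then 1 else 0)
    (v : (n : ℕ) → (P 𝕜 x n →ₗ[𝕜] P 𝕜 x n)) (y : E)
    (hy : Tendsto (fun n => (v n (trunc x (fun i => f i y) n) : E)) atTop (𝓝 y)) :
    Tendsto (fun n => (v' x f v n (trunc x (fun i => f i y) n) : E)) atTop (𝓝 y) := by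
  have key : ∀ k j, ‖(w x f v k j (trunc x (fun i => f i y) k) : E) - y‖ ≤
      (1 + ‖x 0‖) * ‖(v k (trunc x (fun i => f i y) k) : E) - y‖ := by
    intro k j
    set t := trunc x (fun i => f i y) k with ht
    have hn : (0 : ℝ) ≤ ‖(v k t : E) - y‖ := norm_nonneg _
    rcases j with _ | i
    · rw [w_zero_apply]
      nlinarith [mul_nonneg (norm_nonneg (x 0)) hn]
    · rw [w_succ_apply]
      have h1 : ‖c f i * f i ((v k t : E) - t)‖ ≤ ‖(v k t : E) - y‖ := by
        rcases le_or_gt i k with hik | hik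
        · have : f i ((v k t : E) - t) = f i ((v k t : E) - y) := by
            rw [map_sub, map_sub, ht, f_trunc hf _ hik]
          rw [this]
          exact norm_c_mul_le f i _
        · have : f i ((v k t : E) - t) = 0 := by
            rw [map_sub, f_of_mem_P_eq_zero hf hik, f_of_mem_P_eq_zero hf hik, sub_zero]
          rw [this, mul_zero, norm_zero]
          exact hn
      calc ‖(v k t : E) + (c f i * f i ((v k t : E) - t)) • x 0 - y‖
          = ‖((v k t : E) - y) + (c f i * f i ((v k t : E) - t)) • x 0‖ := by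
            congr 1; abel
        _ ≤ ‖(v k t : E) - y‖ + ‖c f i * f i ((v k t : E) - t)‖ * ‖x 0‖ := by
            refine (norm_add_le _ _).trans ?_
            rw [norm_smul]
        _ ≤ ‖(v k t : E) - y‖ + ‖(v k t : E) - y‖ * ‖x 0‖ := by
            gcongr
        _ = (1 + ‖x 0‖) * ‖(v k t : E) - y‖ := by ring
  have h0 : Tendsto (fun k => (1 + ‖x 0‖) * ‖(v k (trunc x (fun i => f i y) k) : E) - y‖)
      atTop (𝓝 0) := by
    have := (tendsto_iff_norm_sub_tendsto_zero.1 hy).const_mul (1 + ‖x 0‖)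
    simpa using this
  rw [tendsto_iff_norm_sub_tendsto_zero]
  refine squeeze_zero (fun n => norm_nonneg _) (fun n => ?_) (h0.comp tendsto_sqrt)
  rw [v'_trunc hf]
  exact key _ _

/-- The uniqueness of the expansions with respect to the new endomorphisms. -/
theorem unique_v' {x : ℕ → E} {f : ℕ → (E →L[𝕜] 𝕜)}
    (hf : ∀ i j, f i (x j) = if i = j then 1 else 0)
    (v : (n : ℕ) → (P 𝕜 x n →ₗ[𝕜] P 𝕜 x n)) (y : E) (α : ℕ → 𝕜)
    (h : Tendsto (fun n => (v' x f v n (trunc x α n) : E)) atTop (𝓝 y)) (i : ℕ) :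
    α i = f i y := by
  have hsq : ∀ j : ℕ, Tendsto (fun k : ℕ => k * k + j) atTop atTop := fun j =>
    tendsto_atTop_mono (fun k => (Nat.le_mul_self k).trans (Nat.le_add_right _ j)) tendsto_id
  -- the terms with `j = 0`
  have h0 : Tendsto (fun k => (v k (trunc x α k) : E)) atTop (𝓝 y) := by
    have := h.comp (hsq 0)
    refine this.congr fun k => ?_
    simp only [Function.comp]
    rw [v'_trunc' hf v α k 0 (Nat.zero_le _), w_zero_apply]
  -- the terms with `j = i + 1`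
  have h1 : Tendsto (fun k => (v k (trunc x α k) : E) +
      (c f i * f i ((v k (trunc x α k) : E) - trunc x α k)) • x 0) atTop (𝓝 y) := by
    have := h.comp (hsq (i + 1))
    refine this.congr' ?_
    filter_upwards [eventually_ge_atTop (i + 1)] with k hk
    simp only [Function.comp]
    rw [v'_trunc' hf v α k (i + 1) (by omega), w_succ_apply]
  have h2 : Tendsto (fun k => (c f i * f i ((v k (trunc x α k) : E) - trunc x α k)) • x 0)
      atTop (𝓝 0) := by
    have := h1.sub h0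
    simpa using this
  have h3 : Tendsto (fun k => (c f i * f i ((v k (trunc x α k) : E) - trunc x α k)) • x 0)
      atTop (𝓝 ((c f i * (f i y - α i)) • x 0)) := by
    have h4 : Tendsto (fun k => f i (v k (trunc x α k) : E) - α i) atTop (𝓝 (f i y - α i)) :=
      (((f i).continuous.tendsto y).comp h0).sub_const _
    have h5 := (h4.const_mul (c f i)).smul_const (x 0)
    refine h5.congr' ?_
    filter_upwards [eventually_ge_atTop i] with k hk
    rw [map_sub, f_trunc hf α hk]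
  have h6 := tendsto_nhds_unique h2 h3
  have hx0 : x 0 ≠ 0 := by
    intro h0
    have := hf 0 0
    simp [h0] at this
  rcases smul_eq_zero.1 h6.symm with h7 | h7
  · rcases mul_eq_zero.1 h7 with h8 | h8
    · exact absurd h8 (c_ne_zero f i)
    · exact (sub_eq_zero.1 h8).symm
  · exact absurd h7 hx0

end Proof

/-- Sanity check (not used below): every countable Hilbert basis is an operational basis, with
`v n` the identity. -/
theorem isOperationalBasis_of_hilbertBasis {𝕜 : Type*} [RCLike 𝕜] {E : Type*}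
    [NormedAddCommGroup E] [InnerProductSpace 𝕜 E] (b : HilbertBasis ℕ 𝕜 E) :
    IsOperationalBasis 𝕜 (fun n => b n) := by
  refine ⟨fun i => innerSL 𝕜 (b i), ⟨?_, ?_⟩, fun n => LinearMap.id, ?_⟩
  · rw [Submodule.dense_iff_topologicalClosure_eq_top]
    exact b.dense_span
  · intro i j
    simpa using orthonormal_iff_ite.1 b.orthonormal i j
  · intro y
    have h := (b.hasSum_repr y).tendsto_sum_nat.comp (tendsto_add_atTop_nat 1)
    refine h.congr fun n => ?_
    simp [trunc, b.repr_apply_apply]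

/-- **Every operational basis is a generalized summation basis.**  Let `(x n)` be an operational
basis of a normed space `E` (in particular, of a Banach space `E`) over `𝕜 = ℝ` or `ℂ`.  Then
there are linear endomorphisms `v' n` of `P 𝕜 x n` such that `(x n)` is a generalized summation
basis of `E` with respect to `(v' n)`. -/
theorem result {𝕜 : Type*} [RCLike 𝕜] {E : Type*} [NormedAddCommGroup E] [NormedSpace 𝕜 E]
    (x : ℕ → E) (hx : IsOperationalBasis 𝕜 x) :
    ∃ v' : (n : ℕ) → (P 𝕜 x n →ₗ[𝕜] P 𝕜 x n), IsGeneralizedSummationBasis x v' := by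
  obtain ⟨f, ⟨-, hf⟩, v, hv⟩ := hx
  refine ⟨v' x f v, ?_, ?_⟩
  · intro i
    have h1 := tendsto_v' hf v (x i) (hv (x i))
    have h2 : Tendsto (fun n : ℕ => i + n) atTop atTop :=
      tendsto_atTop_mono (fun n => Nat.le_add_left n i) tendsto_id
    refine (h1.comp h2).congr fun n => ?_
    have h3 : (trunc x (fun j => f j (x i)) (i + n) : P 𝕜 x (i + n)) =
        ⟨x i, mem_P x (Nat.le_add_right i n)⟩ := by
      apply Subtype.ext
      change ∑ j ∈ Finset.range (i + n + 1), f j (x i) • x j = x i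
      rw [Finset.sum_eq_single i]
      · simp [hf]
      · intro j _ hj
        simp [hf, hj]
      · intro hi
        exact absurd (Finset.mem_range.2 (by omega)) hi
    simp only [Function.comp]
    rw [h3]
  · intro y
    refine ⟨fun i => f i y, tendsto_v' hf v y (hv y), fun α hα => ?_⟩
    funext i
    exact unique_v' hf v y α hα i

end Pool.Agent.Results.MP_59cc96_an.OperationalIsSummation
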